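import Mathlib

/-!
# A vertex-transitive CIS graph whose chromatic number exceeds its clique number

Let `Y` be the circulant graph `C₁₃(1, 5)`: it is triangle-free, arc-transitive and not
`3`-colourable.  The vertices of `Γ` are the edges of `Y` with a Boolean label on each of their two
endpoints, and two of them are adjacent if they give different labels to a common node of `Y`.
Then `Γ` is a vertex-transitive CIS graph with clique number `4` (on `104` vertices) which is not
`4`-colourable.
-/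

open Finset

namespace Pool.Agent.Results.MP_3eb3c1_co.NotOmegaColorable

/-- `Γ` is vertex-transitive: its automorphism group acts transitively on the vertices. -/
def IsVertexTransitive {V : Type} (Γ : SimpleGraph V) : Prop :=
  ∀ u v : V, ∃ φ : Γ ≃g Γ, φ u = v

/-- `Γ` is a CIS graph: every inclusion-maximal clique meets every inclusion-maximal stable
(independent) set. -/
def IsCIS {V : Type} (Γ : SimpleGraph V) : Prop :=
  ∀ C S : Set V, Maximal Γ.IsClique C → Maximal Γ.IsIndepSet S → (C ∩ S).Nonempty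

/-! ### The general construction -/

section General

variable {E W : Type} (s t : E → W)

/-- The labelled edge `u = (e, a, b)` gives the label `l` to the node `y`. -/
def Has (u : E × Bool × Bool) (y : W) (l : Bool) : Prop :=
  (s u.1 = y ∧ u.2.1 = l) ∨ (t u.1 = y ∧ u.2.2 = l)

/-- Incidence of edges and nodes. -/
def Inc (e : E) (y : W) : Prop := s e = y ∨ t e = y

/-- Conflict of two labelled edges. -/
def Conf (u w : E × Bool × Bool) : Prop := ∃ y l, Has s t u y l ∧ Has s t w y (!l)

variable {s t}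

theorem conf_symm {u w : E × Bool × Bool} (h : Conf s t u w) : Conf s t w u := by
  obtain ⟨y, l, h1, h2⟩ := h
  exact ⟨y, !l, h2, by simpa using h1⟩

theorem inc_of_has {u : E × Bool × Bool} {y : W} {l : Bool} (h : Has s t u y l) :
    Inc s t u.1 y := by
  rcases h with h | h
  · exact Or.inl h.1
  · exact Or.inr h.1

theorem has_of_inc {u : E × Bool × Bool} {y : W} (h : Inc s t u.1 y) : ∃ l, Has s t u y l := by
  rcases h with h | h
  · exact ⟨_, Or.inl ⟨h, rfl⟩⟩
  · exact ⟨_, Or.inr ⟨h, rfl⟩⟩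

theorem has_unique (H1 : ∀ e, s e ≠ t e) {u : E × Bool × Bool} {y : W} {l l' : Bool}
    (h : Has s t u y l) (h' : Has s t u y l') : l = l' := by
  rcases h with h | h <;> rcases h' with h' | h'
  · exact h.2.symm.trans h'.2
  · exact absurd (h.1.trans h'.1.symm) (H1 _)
  · exact absurd (h'.1.trans h.1.symm) (H1 _)
  · exact h.2.symm.trans h'.2

theorem conf_irrefl (H1 : ∀ e, s e ≠ t e) (u : E × Bool × Bool) : ¬ Conf s t u u := by
  rintro ⟨y, l, h1, h2⟩
  have := has_unique H1 h1 h2
  cases l <;> simp at this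

/-- The graph of the construction. -/
def GG (s t : E → W) (H1 : ∀ e, s e ≠ t e) : SimpleGraph (E × Bool × Bool) where
  Adj u w := Conf s t u w
  symm := ⟨fun _ _ h => conf_symm h⟩
  loopless := ⟨fun u => conf_irrefl H1 u⟩

theorem conf_same {u w : E × Bool × Bool} (he : u.1 = w.1) (hne : u ≠ w) : Conf s t u w := by
  obtain ⟨e, a, b⟩ := u
  obtain ⟨e', a', b'⟩ := w
  simp only at he
  subst he
  by_cases ha : a = a'
  · subst ha
    have hb : b' = !b := by
      cases b <;> cases b' <;> simp_all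
    exact ⟨t e, b, Or.inr ⟨rfl, rfl⟩, Or.inr ⟨rfl, hb⟩⟩
  · have ha' : a' = !a := by
      cases a <;> cases a' <;> simp_all
    exact ⟨s e, a, Or.inl ⟨rfl, rfl⟩, Or.inl ⟨rfl, ha'⟩⟩

theorem conf_label (H1 : ∀ e, s e ≠ t e)
    (H2 : ∀ e e' y z, e ≠ e' → Inc s t e y → Inc s t e' y → Inc s t e z → Inc s t e' z → y = z)
    {u w : E × Bool × Bool} (he : u.1 ≠ w.1) (h : Conf s t u w) {y : W} (hu : Inc s t u.1 y)
    (hw : Inc s t w.1 y) {l : Bool} (hl : Has s t u y l) : Has s t w y (!l) := by
  obtain ⟨y', l', h1, h2⟩ := h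
  have hy : y = y' := H2 _ _ _ _ he hu hw (inc_of_has h1) (inc_of_has h2)
  subst hy
  have := has_unique H1 hl h1
  subst this
  exact h2

/-- Structure of cliques containing labelled edges on two different edges. -/
theorem clique_two (H1 : ∀ e, s e ≠ t e)
    (H2 : ∀ e e' y z, e ≠ e' → Inc s t e y → Inc s t e' y → Inc s t e z → Inc s t e' z → y = z)
    (H3 : ∀ e1 e2 e3 x y z, e1 ≠ e2 → e1 ≠ e3 → e2 ≠ e3 → Inc s t e1 x → Inc s t e2 x →
      Inc s t e1 y → Inc s t e3 y → Inc s t e2 z → Inc s t e3 z → x = y)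
    {C : Set (E × Bool × Bool)} (hC : (GG s t H1).IsClique C) {u w : E × Bool × Bool}
    (hu : u ∈ C) (hw : w ∈ C) (huw : u.1 ≠ w.1) :
    ∃ y l, Has s t u y l ∧ Has s t w y (!l) ∧
      ∀ v ∈ C, (v.1 = u.1 ∧ Has s t v y l) ∨ (v.1 = w.1 ∧ Has s t v y (!l)) := by
  have huwne : u ≠ w := fun h => huw (by rw [h])
  have hadj : Conf s t u w := hC hu hw huwne
  obtain ⟨y, l, h1, h2⟩ := hadj
  refine ⟨y, l, h1, h2, ?_⟩
  intro v hv
  by_cases hvu : v.1 = u.1
  · left
    refine ⟨hvu, ?_⟩
    have hvw : v.1 ≠ w.1 := fun h => huw (hvu.symm.trans h)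
    have hne : v ≠ w := fun h => hvw (by rw [h])
    have hc : Conf s t w v := conf_symm (hC hv hw hne)
    have hiv : Inc s t v.1 y := by rw [hvu]; exact inc_of_has h1
    have := conf_label H1 H2 (Ne.symm hvw) hc (inc_of_has h2) hiv h2
    simpa using this
  · by_cases hvw : v.1 = w.1
    · right
      refine ⟨hvw, ?_⟩
      have hne : u ≠ v := fun h => hvu (by rw [h])
      have hc : Conf s t u v := hC hu hv hne
      have hiv : Inc s t v.1 y := by rw [hvw]; exact inc_of_has h2
      exact conf_label H1 H2 (Ne.symm hvu) hc (inc_of_has h1) hiv h1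
    · exfalso
      have hne1 : u ≠ v := fun h => hvu (by rw [h])
      have hne2 : w ≠ v := fun h => hvw (by rw [h])
      have hc1 : Conf s t u v := hC hu hv hne1
      have hc2 : Conf s t w v := hC hw hv hne2
      obtain ⟨y1, l1, a1, b1⟩ := id hc1
      obtain ⟨y2, l2, a2, b2⟩ := id hc2
      have e1 : y = y1 := H3 u.1 w.1 v.1 y y1 y2 huw (Ne.symm hvu) (Ne.symm hvw)
        (inc_of_has h1) (inc_of_has h2) (inc_of_has a1) (inc_of_has b1) (inc_of_has a2)
        (inc_of_has b2)
      subst e1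
      have hvy : Inc s t v.1 y := inc_of_has b1
      have c1 := conf_label H1 H2 (Ne.symm hvu) hc1 (inc_of_has h1) hvy h1
      have c2 := conf_label H1 H2 (Ne.symm hvw) hc2 (inc_of_has h2) hvy h2
      have := has_unique H1 c1 c2
      cases l <;> simp at this

/-- The general construction gives CIS graphs. -/
theorem isCIS_GG [Nonempty E] (H1 : ∀ e, s e ≠ t e)
    (H2 : ∀ e e' y z, e ≠ e' → Inc s t e y → Inc s t e' y → Inc s t e z → Inc s t e' z → y = z)
    (H3 : ∀ e1 e2 e3 x y z, e1 ≠ e2 → e1 ≠ e3 → e2 ≠ e3 → Inc s t e1 x → Inc s t e2 x →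
      Inc s t e1 y → Inc s t e3 y → Inc s t e2 z → Inc s t e3 z → x = y) :
    IsCIS (GG s t H1) := by
  classical
  intro C S hC hS
  -- the labelling defined by `S`
  let F : W → Bool := fun y => decide (∃ u ∈ S, Has s t u y true)
  have hF : ∀ u ∈ S, ∀ y l, Has s t u y l → F y = l := by
    intro u hu y l hl
    cases l with
    | true =>
      simp only [F, decide_eq_true_eq]
      exact ⟨u, hu, hl⟩
    | false =>
      simp only [F, decide_eq_false_iff_not]
      rintro ⟨w, hw, hwy⟩
      by_cases huw : u = w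
      · subst huw
        have := has_unique H1 hl hwy
        simp at this
      · exact hS.prop hu hw huw ⟨y, false, hl, hwy⟩
  let uF : E → E × Bool × Bool := fun e => (e, F (s e), F (t e))
  have huFHas : ∀ e y l, Has s t (uF e) y l → F y = l := by
    intro e y l h
    rcases h with ⟨h1, h2⟩ | ⟨h1, h2⟩
    · rw [← h1]; exact h2
    · rw [← h1]; exact h2
  have huF : ∀ e, uF e ∈ S := by
    intro e
    have hind : (GG s t H1).IsIndepSet (insert (uF e) S) := by
      intro u hu w hw huw hadj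
      obtain ⟨y, l, h1, h2⟩ := hadj
      have g1 : F y = l := by
        rcases hu with rfl | hu
        · exact huFHas _ _ _ h1
        · exact hF u hu _ _ h1
      have g2 : F y = !l := by
        rcases hw with rfl | hw
        · exact huFHas _ _ _ h2
        · exact hF w hw _ _ h2
      rw [g1] at g2
      cases l <;> simp at g2
    exact hS.le_of_ge hind (Set.subset_insert _ _) (Set.mem_insert _ _)
  -- the clique is nonempty
  have hCne : C.Nonempty := by
    by_contra hcon
    rw [Set.not_nonempty_iff_eq_empty] at hcon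
    obtain ⟨e⟩ : Nonempty E := inferInstance
    have h1 : (GG s t H1).IsClique {(e, false, false)} := Set.pairwise_singleton _ _
    have h2 := hC.le_of_ge h1 (by rw [hcon]; exact Set.empty_subset _)
      (Set.mem_singleton _)
    rw [hcon] at h2
    exact h2
  obtain ⟨u, hu⟩ := hCne
  by_cases hall : ∀ v ∈ C, v.1 = u.1
  · -- all on one edge
    refine ⟨uF u.1, ?_, huF _⟩
    have hcl : (GG s t H1).IsClique (insert (uF u.1) C) := by
      intro v hv w hw hvw
      apply conf_same _ hvw
      have g1 : v.1 = u.1 := by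
        rcases hv with rfl | hv
        · rfl
        · exact hall v hv
      have g2 : w.1 = u.1 := by
        rcases hw with rfl | hw
        · rfl
        · exact hall w hw
      rw [g1, g2]
    exact hC.le_of_ge hcl (Set.subset_insert _ _) (Set.mem_insert _ _)
  · push Not at hall
    obtain ⟨w, hw, hwu⟩ := hall
    obtain ⟨y, l, h1, h2, h3⟩ := clique_two H1 H2 H3 hC.prop hu hw (Ne.symm hwu)
    -- the big clique
    have hbig : (GG s t H1).IsClique
        {v | (v.1 = u.1 ∧ Has s t v y l) ∨ (v.1 = w.1 ∧ Has s t v y (!l))} := by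
      intro v hv v' hv' hne
      rcases hv with ⟨a1, a2⟩ | ⟨a1, a2⟩ <;> rcases hv' with ⟨b1, b2⟩ | ⟨b1, b2⟩
      · exact conf_same (a1.trans b1.symm) hne
      · exact ⟨y, l, a2, b2⟩
      · exact ⟨y, !l, a2, by simpa using b2⟩
      · exact conf_same (a1.trans b1.symm) hne
    have hsub := hC.le_of_ge hbig h3
    have hcase : ∀ e, Inc s t e y → Has s t (uF e) y (F y) := by
      intro e he
      obtain ⟨l', hl'⟩ := has_of_inc (u := uF e) he
      rw [huFHas e y l' hl']
      exact hl'
    by_cases hFy : F y = l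
    · refine ⟨uF u.1, hsub (Or.inl ⟨rfl, ?_⟩), huF _⟩
      have := hcase u.1 (inc_of_has h1)
      rw [hFy] at this
      exact this
    · refine ⟨uF w.1, hsub (Or.inr ⟨rfl, ?_⟩), huF _⟩
      have := hcase w.1 (inc_of_has h2)
      have hFy' : F y = !l := by
        cases hh : F y <;> cases l <;> simp_all
      rw [hFy'] at this
      exact this

/-- Cliques have at most four elements. -/
theorem card_clique_le [DecidableEq E] (H1 : ∀ e, s e ≠ t e)
    (H2 : ∀ e e' y z, e ≠ e' → Inc s t e y → Inc s t e' y → Inc s t e z → Inc s t e' z → y = z)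
    (H3 : ∀ e1 e2 e3 x y z, e1 ≠ e2 → e1 ≠ e3 → e2 ≠ e3 → Inc s t e1 x → Inc s t e2 x →
      Inc s t e1 y → Inc s t e3 y → Inc s t e2 z → Inc s t e3 z → x = y)
    (C : Finset (E × Bool × Bool)) (hC : (GG s t H1).IsClique (C : Set (E × Bool × Bool))) :
    C.card ≤ 4 := by
  classical
  rcases C.eq_empty_or_nonempty with rfl | ⟨u, hu⟩
  · simp
  by_cases hall : ∀ v ∈ C, v.1 = u.1
  · calc C.card ≤ (univ : Finset (Bool × Bool)).card := by
          apply Finset.card_le_card_of_injOn (fun v => v.2) (fun _ _ => by simp)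
          intro v hv w hw hvw
          exact Prod.ext ((hall v hv).trans (hall w hw).symm) hvw
      _ = 4 := by simp
  · push Not at hall
    obtain ⟨w, hw, hwu⟩ := hall
    obtain ⟨y, l, h1, h2, h3⟩ := clique_two H1 H2 H3 hC hu hw (Ne.symm hwu)
    -- half of the clique
    have hhalf : ∀ (e : E) (l : Bool) (D : Finset (E × Bool × Bool)),
        (∀ v ∈ D, v.1 = e ∧ Has s t v y l) → D.card ≤ 2 := by
      intro e l D hD
      have hinj : ∀ (g : E × Bool × Bool → Bool), Set.InjOn g (D : Set (E × Bool × Bool)) →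
          D.card ≤ 2 := by
        intro g hg
        calc D.card ≤ (univ : Finset Bool).card :=
              Finset.card_le_card_of_injOn g (fun _ _ => by simp) hg
          _ = 2 := by simp
      by_cases hse : s e = y
      · apply hinj (fun v => v.2.2)
        intro v hv v' hv' hvv
        obtain ⟨a1, a2⟩ := hD v hv
        obtain ⟨b1, b2⟩ := hD v' hv'
        have c1 : v.2.1 = l := by
          rcases a2 with a2 | a2
          · exact a2.2
          · exact absurd (hse.trans (by rw [← a1]; exact a2.1.symm)) (H1 e)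
        have c2 : v'.2.1 = l := by
          rcases b2 with b2 | b2
          · exact b2.2
          · exact absurd (hse.trans (by rw [← b1]; exact b2.1.symm)) (H1 e)
        exact Prod.ext (a1.trans b1.symm) (Prod.ext (c1.trans c2.symm) hvv)
      · apply hinj (fun v => v.2.1)
        intro v hv v' hv' hvv
        obtain ⟨a1, a2⟩ := hD v hv
        obtain ⟨b1, b2⟩ := hD v' hv'
        have c1 : v.2.2 = l := by
          rcases a2 with a2 | a2
          · exact absurd (by rw [← a1]; exact a2.1) hse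
          · exact a2.2
        have c2 : v'.2.2 = l := by
          rcases b2 with b2 | b2
          · exact absurd (by rw [← b1]; exact b2.1) hse
          · exact b2.2
        exact Prod.ext (a1.trans b1.symm) (Prod.ext hvv (c1.trans c2.symm))
    have hsplit : C ⊆ (C.filter (fun v => v.1 = u.1 ∧ Has s t v y l)) ∪
        (C.filter (fun v => v.1 = w.1 ∧ Has s t v y (!l))) := by
      intro v hv
      rw [mem_union, mem_filter, mem_filter]
      rcases h3 v hv with h | h
      · exact Or.inl ⟨hv, h⟩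
      · exact Or.inr ⟨hv, h⟩
    have g1 := hhalf u.1 l (C.filter (fun v => v.1 = u.1 ∧ Has s t v y l))
      (fun v hv => (mem_filter.1 hv).2)
    have g2 := hhalf w.1 (!l) (C.filter (fun v => v.1 = w.1 ∧ Has s t v y (!l)))
      (fun v hv => (mem_filter.1 hv).2)
    calc C.card ≤ _ := card_le_card hsplit
      _ ≤ _ := card_union_le _ _
      _ ≤ 4 := by omega

/-- Automorphisms from symmetries of the labelled structure. -/
def isoOfHas (H1 : ∀ e, s e ≠ t e) (φ : (E × Bool × Bool) ≃ (E × Bool × Bool)) (ψ : W ≃ W)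
    (h : W → Bool)
    (H : ∀ u y l, Has s t (φ u) (ψ y) (xor l (h y)) ↔ Has s t u y l) :
    GG s t H1 ≃g GG s t H1 where
  toEquiv := φ
  map_rel_iff' := by
    intro u w
    constructor
    · rintro ⟨y', l', a1, a2⟩
      obtain ⟨y, rfl⟩ := ψ.surjective y'
      refine ⟨y, xor l' (h y), ?_, ?_⟩
      · rw [← H]
        simpa using a1
      · rw [← H]
        have : xor (!(xor l' (h y))) (h y) = !l' := by
          cases l' <;> cases h y <;> rfl
        rw [this]
        exact a2
    · rintro ⟨y, l, a1, a2⟩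
      refine ⟨ψ y, xor l (h y), (H _ _ _).2 a1, ?_⟩
      have : (!(xor l (h y))) = xor (!l) (h y) := by
        cases l <;> cases h y <;> rfl
      rw [this]
      exact (H _ _ _).2 a2

end General

/-! ### The circulant graph `C₁₃(1, 5)` -/

/-- The two steps. -/
def d (j : Bool) : ZMod 13 := if j then 5 else 1

/-- First node of an edge. -/
def s13 (e : ZMod 13 × Bool) : ZMod 13 := e.1

/-- Second node of an edge. -/
def t13 (e : ZMod 13 × Bool) : ZMod 13 := e.1 + d e.2

theorem hst : ∀ e : ZMod 13 × Bool, s13 e ≠ t13 e := by decide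

theorem edge_eq : ∀ (x x' : ZMod 13) (j j' : Bool),
    ((x = x' ∧ x + d j = x' + d j') ∨ (x = x' + d j' ∧ x + d j = x')) →
      (x, j) = (x', j') := by decide

theorem H2' : ∀ (e e' : ZMod 13 × Bool) (y z : ZMod 13), e ≠ e' → Inc s13 t13 e y →
    Inc s13 t13 e' y → Inc s13 t13 e z → Inc s13 t13 e' z → y = z := by
  rintro ⟨x, j⟩ ⟨x', j'⟩ y z hne h1 h2 h3 h4
  by_contra hyz
  apply hne
  apply edge_eq
  simp only [Inc, s13, t13] at h1 h2 h3 h4
  rcases h1 with h1 | h1 <;> rcases h2 with h2 | h2 <;> rcases h3 with h3 | h3 <;>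
    rcases h4 with h4 | h4
  all_goals first
    | exact absurd (h1.symm.trans h3) hyz
    | exact absurd (h2.symm.trans h4) hyz
    | exact Or.inl ⟨h1.trans h2.symm, h3.trans h4.symm⟩
    | exact Or.inl ⟨h3.trans h4.symm, h1.trans h2.symm⟩
    | exact Or.inr ⟨h1.trans h2.symm, h3.trans h4.symm⟩
    | exact Or.inr ⟨h3.trans h4.symm, h1.trans h2.symm⟩

/-- The connection set. -/
def InD (x : ZMod 13) : Prop := x = 1 ∨ x = 5 ∨ x = 8 ∨ x = 12

instance : DecidablePred InD := fun x => by unfold InD; infer_instance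

theorem sum_free : ∀ a b : ZMod 13, InD a → InD b → ¬ InD (b - a) := by decide

theorem d_InD : ∀ j : Bool, InD (d j) ∧ InD (-(d j)) := by decide

theorem inc_diff {e : ZMod 13 × Bool} {y z : ZMod 13} (hy : Inc s13 t13 e y)
    (hz : Inc s13 t13 e z) (hyz : y ≠ z) : InD (y - z) := by
  obtain ⟨x, j⟩ := e
  simp only [Inc, s13, t13] at hy hz
  rcases hy with hy | hy <;> rcases hz with hz | hz
  · exact absurd (hy.symm.trans hz) hyz
  · rw [← hy, ← hz]
    have : x - (x + d j) = -(d j) := by ring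
    rw [this]
    exact (d_InD j).2
  · rw [← hy, ← hz]
    have : x + d j - x = d j := by ring
    rw [this]
    exact (d_InD j).1
  · exact absurd (hy.symm.trans hz) hyz

theorem H3' : ∀ (e1 e2 e3 : ZMod 13 × Bool) (x y z : ZMod 13), e1 ≠ e2 → e1 ≠ e3 → e2 ≠ e3 →
    Inc s13 t13 e1 x → Inc s13 t13 e2 x → Inc s13 t13 e1 y → Inc s13 t13 e3 y →
    Inc s13 t13 e2 z → Inc s13 t13 e3 z → x = y := by
  intro e1 e2 e3 x y z h12 h13 h23 a1 a2 b1 b3 c2 c3
  by_contra hxy
  have hxz : x ≠ z := by
    intro h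
    exact hxy (H2' e1 e3 x y h13 a1 (by rw [h]; exact c3) b1 b3)
  have hyz : y ≠ z := by
    intro h
    exact hxy (H2' e1 e2 x y h12 a1 a2 b1 (by rw [h]; exact c2))
  have g1 : InD (x - y) := inc_diff a1 b1 hxy
  have g2 : InD (x - z) := inc_diff a2 c2 hxz
  have g3 : InD (y - z) := inc_diff b3 c3 hyz
  apply sum_free (x - y) (x - z) g1 g2
  have : x - z - (x - y) = y - z := by ring
  rw [this]
  exact g3

/-- The counterexample: a graph on `104` vertices. -/
def Γ : SimpleGraph ((ZMod 13 × Bool) × Bool × Bool) := GG s13 t13 hst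

/-! ### Vertex-transitivity -/

/-- Translation of the vertices of `Γ`. -/
def trE (r : ZMod 13) : ((ZMod 13 × Bool) × Bool × Bool) ≃ ((ZMod 13 × Bool) × Bool × Bool) where
  toFun u := ((u.1.1 + r, u.1.2), u.2)
  invFun u := ((u.1.1 - r, u.1.2), u.2)
  left_inv u := by simp
  right_inv u := by simp

theorem trE_has (r : ZMod 13) (u : (ZMod 13 × Bool) × Bool × Bool) (y : ZMod 13) (l : Bool) :
    Has s13 t13 (trE r u) ((Equiv.addRight r) y) (xor l false) ↔ Has s13 t13 u y l := by
  obtain ⟨⟨x, j⟩, a, b⟩ := u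
  have h1 : x + r + d j = y + r ↔ x + d j = y := by
    constructor
    · intro h; linear_combination h
    · intro h; linear_combination h
  simp [Has, trE, s13, t13, h1]

/-- Flipping labels. -/
def flE (h : ZMod 13 → Bool) :
    ((ZMod 13 × Bool) × Bool × Bool) ≃ ((ZMod 13 × Bool) × Bool × Bool) where
  toFun u := (u.1, xor u.2.1 (h (s13 u.1)), xor u.2.2 (h (t13 u.1)))
  invFun u := (u.1, xor u.2.1 (h (s13 u.1)), xor u.2.2 (h (t13 u.1)))
  left_inv u := by simp
  right_inv u := by simp

theorem xor_cancel : ∀ a b c : Bool, xor a c = xor b c → a = b := by decide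

theorem flE_has (h : ZMod 13 → Bool) (u : (ZMod 13 × Bool) × Bool × Bool) (y : ZMod 13)
    (l : Bool) :
    Has s13 t13 (flE h u) ((Equiv.refl _) y) (xor l (h y)) ↔ Has s13 t13 u y l := by
  obtain ⟨e, a, b⟩ := u
  simp only [Has, flE, Equiv.coe_fn_mk, Equiv.refl_apply]
  constructor
  · rintro (⟨h1, h2⟩ | ⟨h1, h2⟩)
    · left
      refine ⟨h1, ?_⟩
      rw [h1] at h2
      exact xor_cancel _ _ _ h2
    · right
      refine ⟨h1, ?_⟩
      rw [h1] at h2
      exact xor_cancel _ _ _ h2
  · rintro (⟨h1, h2⟩ | ⟨h1, h2⟩)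
    · left
      exact ⟨h1, by rw [h1, h2]⟩
    · right
      exact ⟨h1, by rw [h1, h2]⟩

/-- Multiplication by `5`. -/
def mu : (ZMod 13 × Bool) × Bool × Bool → (ZMod 13 × Bool) × Bool × Bool
  | ((x, false), a, b) => ((5 * x, true), a, b)
  | ((x, true), a, b) => ((5 * x - 1, false), b, a)

/-- Inverse of `mu`. -/
def nu : (ZMod 13 × Bool) × Bool × Bool → (ZMod 13 × Bool) × Bool × Bool
  | ((x, true), a, b) => ((8 * x, false), a, b)
  | ((x, false), a, b) => ((8 * (x + 1), true), b, a)

/-- `mu` as an equivalence. -/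
def muE : ((ZMod 13 × Bool) × Bool × Bool) ≃ ((ZMod 13 × Bool) × Bool × Bool) where
  toFun := mu
  invFun := nu
  left_inv := by
    have h : ∀ x : ZMod 13, 8 * (5 * x) = x := by decide
    rintro ⟨⟨x, j⟩, a, b⟩
    cases j <;> simp [mu, nu, h]
  right_inv := by
    have h : ∀ x : ZMod 13, 5 * (8 * x) = x := by decide
    rintro ⟨⟨x, j⟩, a, b⟩
    cases j <;> simp [mu, nu, h]

/-- Multiplication by `5` on the nodes. -/
def mul5 : ZMod 13 ≃ ZMod 13 where
  toFun x := 5 * x
  invFun x := 8 * x
  left_inv := by decide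
  right_inv := by decide

theorem muE_has (u : (ZMod 13 × Bool) × Bool × Bool) (y : ZMod 13) (l : Bool) :
    Has s13 t13 (muE u) (mul5 y) (xor l false) ↔ Has s13 t13 u y l := by
  obtain ⟨⟨x, j⟩, a, b⟩ := u
  have hinj : ∀ x y : ZMod 13, 5 * x = 5 * y ↔ x = y := by decide
  have h1 : ∀ x y : ZMod 13, 5 * x + 5 = 5 * y ↔ x + 1 = y := by decide
  have h2 : ∀ x y : ZMod 13, 5 * x - 1 = 5 * y ↔ x + 5 = y := by decide
  cases j
  · simp [Has, muE, mu, mul5, s13, t13, d, hinj, h1]
  · simp [Has, muE, mu, mul5, s13, t13, d, hinj, h2]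
    exact or_comm

theorem to_base (u : (ZMod 13 × Bool) × Bool × Bool) :
    ∃ φ : Γ ≃g Γ, φ u = ((0, false), false, false) := by
  obtain ⟨⟨x, j⟩, a, b⟩ := u
  -- flip the labels
  let h : ZMod 13 → Bool := fun y => if y = x then a else if y = x + d j then b else false
  let φ1 : Γ ≃g Γ := isoOfHas hst (flE h) (Equiv.refl _) h (flE_has h)
  let φ2 : Γ ≃g Γ := isoOfHas hst (trE (-x)) (Equiv.addRight (-x)) (fun _ => false)
    (trE_has (-x))
  have hne : x + d j ≠ x := fun hh => hst (x, j) hh.symm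
  have h1 : φ1 ((x, j), a, b) = ((x, j), false, false) := by
    show flE h ((x, j), a, b) = ((x, j), false, false)
    simp [flE, h, s13, t13, hne]
  have h2 : φ2 ((x, j), false, false) = ((0, j), false, false) := by
    show trE (-x) ((x, j), false, false) = ((0, j), false, false)
    simp [trE]
  cases j with
  | false => exact ⟨φ1.trans φ2, by
      show φ2 (φ1 ((x, false), a, b)) = _
      rw [h1, h2]⟩
  | true =>
    let φ3 : Γ ≃g Γ := isoOfHas hst muE mul5 (fun _ => false) muE_has
    let φ4 : Γ ≃g Γ := isoOfHas hst (trE 1) (Equiv.addRight 1) (fun _ => false) (trE_has 1)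
    have h3 : φ4 (φ3 ((0, true), false, false)) = ((0, false), false, false) := by
      show trE 1 (muE ((0, true), false, false)) = ((0, false), false, false)
      decide
    exact ⟨(φ1.trans φ2).trans (φ3.trans φ4), by
      show φ4 (φ3 (φ2 (φ1 ((x, true), a, b)))) = _
      rw [h1, h2, h3]⟩

theorem vertexTransitive : IsVertexTransitive Γ := by
  intro u v
  obtain ⟨φ, hφ⟩ := to_base u
  obtain ⟨ψ, hψ⟩ := to_base v
  refine ⟨φ.trans ψ.symm, ?_⟩
  show ψ.symm (φ u) = v
  rw [hφ, ← hψ]
  exact ψ.symm_apply_apply v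

/-! ### Non-colourability -/

set_option maxRecDepth 100000 in
set_option synthInstance.maxSize 100000 in
set_option synthInstance.maxHeartbeats 4000000 in
theorem no_three : ∀ c8 : Fin 3, ∀ c3 : Fin 3, c3 ≠ c8 → ∀ c4 : Fin 3, c4 ≠ c3 → ∀ c9 : Fin 3,
    c9 ≠ c8 → c9 ≠ c4 → ∀ c7 : Fin 3, c7 ≠ c8 → ∀ c12 : Fin 3, c12 ≠ c4 → c12 ≠ c7 →
    ∀ c2 : Fin 3, c2 ≠ c3 → c2 ≠ c7 → ∀ c10 : Fin 3, c10 ≠ c9 → c10 ≠ c2 →
    ∀ c11 : Fin 3, c11 ≠ c3 → c11 ≠ c12 → c11 ≠ c10 → ∀ c5 : Fin 3, c5 ≠ c4 → c5 ≠ c10 →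
    ∀ c0 : Fin 3, c0 ≠ c8 → c0 ≠ c12 → c0 ≠ c5 →
    ∀ c6 : Fin 3, c6 ≠ c7 → c6 ≠ c11 → c6 ≠ c5 →
    ∀ c1 : Fin 3, c1 ≠ c9 → c1 ≠ c2 → c1 ≠ c0 → c1 ≠ c6 → False := by
  decide +kernel

/-- `C₁₃(1, 5)` is not `3`-colourable. -/
theorem no_three' (c : ZMod 13 → Fin 3) (h1 : ∀ x, c x ≠ c (x + 1)) (h5 : ∀ x, c x ≠ c (x + 5)) :
    False :=
  no_three (c 8) (c 3) (h5 3) (c 4) (h1 3).symm (c 9) (h1 8).symm (h5 4).symm (c 7) (h1 7)
    (c 12) (h5 12) (h5 7).symm (c 2) (h1 2) (h5 2) (c 10) (h1 9).symm (h5 10) (c 11) (h5 11)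
    (h1 11) (h1 10).symm (c 5) (h1 4).symm (h5 5) (c 0) (h5 8).symm (h1 12).symm (h5 0) (c 6)
    (h1 6) (h5 6) (h1 5).symm (c 1) (h5 9).symm (h1 1) (h1 0).symm (h5 1)

/-- The bipartition of the four colours defined by `v`, as an element of `Fin 3`. -/
def par (v : Fin 4 → Bool) : Fin 3 := if v 1 = v 0 then 0 else if v 2 = v 0 then 1 else 2

theorem par_ne : ∀ v w : Fin 4 → Bool, (∀ c c', v c = v c' → w c = w c' → c = c') →
    par v ≠ par w := by
  decide +kernel

theorem not_colorable_four : ¬ Γ.Colorable 4 := by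
  rintro ⟨C⟩
  -- the label of colour `c` on the edge `e`
  have hbij : ∀ e : ZMod 13 × Bool, Function.Bijective (fun f : Bool × Bool => C (e, f)) := by
    intro e
    rw [Fintype.bijective_iff_injective_and_card]
    refine ⟨?_, by simp⟩
    intro f f' hff
    by_contra hne
    have hadj : Γ.Adj (e, f) (e, f') :=
      conf_same (s := s13) (t := t13) rfl (fun h => hne (congrArg Prod.snd h))
    exact C.valid hadj hff
  choose lab hlab using fun e => (hbij e).2
  have hlab' : ∀ e c, C (e, lab e c) = c := hlab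
  let F : ZMod 13 → Fin 4 → Bool := fun y c => (lab (y, false) c).1
  have hFhas : ∀ y c, Has s13 t13 ((y, false), lab (y, false) c) y (F y c) :=
    fun y c => Or.inl ⟨rfl, rfl⟩
  have hkey : ∀ e c y l, Has s13 t13 (e, lab e c) y l → F y c = l := by
    intro e c y l hl
    by_contra hne
    have hl' : l = !(F y c) := by
      cases hh : F y c <;> cases l <;> simp_all
    have hadj : Γ.Adj ((y, false), lab (y, false) c) (e, lab e c) :=
      ⟨y, F y c, hFhas y c, by rw [← hl']; exact hl⟩
    exact C.valid hadj ((hlab' _ _).trans (hlab' _ _).symm)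
  have hedge : ∀ e : ZMod 13 × Bool, par (F (s13 e)) ≠ par (F (t13 e)) := by
    intro e
    apply par_ne
    intro c c' h1 h2
    have g1 : ∀ c, F (s13 e) c = (lab e c).1 := fun c => hkey e c _ _ (Or.inl ⟨rfl, rfl⟩)
    have g2 : ∀ c, F (t13 e) c = (lab e c).2 := fun c => hkey e c _ _ (Or.inr ⟨rfl, rfl⟩)
    have h3 : lab e c = lab e c' := by
      rw [g1, g1] at h1
      rw [g2, g2] at h2
      exact Prod.ext h1 h2
    rw [← hlab' e c, ← hlab' e c', h3]
  exact no_three' (fun y => par (F y)) (fun x => hedge (x, false)) (fun x => hedge (x, true))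

/-- **Main theorem.** There is a (finite) vertex-transitive CIS graph whose chromatic number is
larger than its clique number. -/
theorem result : ∃ (V : Type) (_ : Fintype V) (Γ : SimpleGraph V),
    IsVertexTransitive Γ ∧ IsCIS Γ ∧ (Γ.cliqueNum : ℕ∞) < Γ.chromaticNumber := by
  refine ⟨(ZMod 13 × Bool) × Bool × Bool, inferInstance, Γ, vertexTransitive,
    isCIS_GG hst H2' H3', ?_⟩
  have h4 : Γ.cliqueNum ≤ 4 := by
    obtain ⟨C, hC⟩ := Γ.exists_isNClique_cliqueNum
    rw [← hC.card_eq]
    exact card_clique_le hst H2' H3' C hC.isClique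
  rw [← not_le]
  intro hle
  apply not_colorable_four
  rw [← SimpleGraph.chromaticNumber_le_iff_colorable]
  exact hle.trans (by exact_mod_cast h4)

end Pool.Agent.Results.MP_3eb3c1_co.NotOmegaColorable
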